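import Pool.Agent.H82.PRP.Stmts

/-!
# ALO: the lower bound `a_n(G) ≥ 1`
-/

namespace Pool.Agent.H82.PRP

open Polynomial

namespace ALO

/-- the truncated polynomial ring -/
abbrev R (p n : ℕ) : Type := (ZMod p)[X] ⧸ (Ideal.span {(X : (ZMod p)[X]) ^ (n + 1)})

/-- the class of `X` -/
noncomputable def T (p n : ℕ) : R p n := Ideal.Quotient.mk _ X

theorem T_pow_ne (p : ℕ) [Fact p.Prime] (n : ℕ) : T p n ^ n ≠ 0 := by
  intro h
  rw [T, ← map_pow, Ideal.Quotient.eq_zero_iff_mem, Ideal.mem_span_singleton] at h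
  have h1 := (pow_dvd_pow_iff (X_ne_zero) (not_isUnit_X)).mp h
  omega

theorem T_pow_eq (p : ℕ) [Fact p.Prime] (n k : ℕ) (h : n < k) : T p n ^ k = 0 := by
  rw [T, ← map_pow, Ideal.Quotient.eq_zero_iff_mem, Ideal.mem_span_singleton]
  exact pow_dvd_pow _ h

theorem one_add_pow (p : ℕ) [Fact p.Prime] (n k : ℕ) (h : n < p ^ k) :
    (1 + T p n) ^ (p ^ k) = 1 := by
  have h1 : ((1 : (ZMod p)[X]) + X) ^ (p ^ k) = 1 + X ^ (p ^ k) := by
    rw [add_pow_char_pow, one_pow]
  have h2 := congrArg (Ideal.Quotient.mk (Ideal.span {(X : (ZMod p)[X]) ^ (n + 1)})) h1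
  rw [map_pow, map_add, map_add, map_one, map_pow] at h2
  have h3 := T_pow_eq p n (p ^ k) h
  rw [T] at h3 ⊢
  rw [h2, h3, add_zero]

/-- the unit `1 + T` -/
noncomputable def U (p : ℕ) [Fact p.Prime] (n k : ℕ) (h : n < p ^ k) : (R p n)ˣ :=
  Units.ofPowEqOne (1 + T p n) (p ^ k) (one_add_pow p n k h)
    (pow_ne_zero _ (Fact.out : p.Prime).ne_zero)

theorem U_val (p : ℕ) [Fact p.Prime] (n k : ℕ) (h : n < p ^ k) :
    ((U p n k h : (R p n)ˣ) : R p n) = 1 + T p n := by
  simp [U]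

theorem U_pow (p : ℕ) [Fact p.Prime] (n k : ℕ) (h : n < p ^ k) :
    (U p n k h) ^ (p ^ k) = 1 := by
  apply Units.ext
  rw [Units.val_pow_eq_pow_val, U_val, one_add_pow p n k h, Units.val_one]

/-- the homomorphism sending the generator to `1 + T` -/
noncomputable def θ0 (p : ℕ) [Fact p.Prime] (n k : ℕ) (h : n < p ^ k) :
    ZMod (p ^ k) →+ Additive (R p n)ˣ :=
  ZMod.lift (p ^ k) ⟨(zmultiplesHom (Additive (R p n)ˣ)) (Additive.ofMul (U p n k h)), by
    rw [zmultiplesHom_apply, natCast_zsmul, ← ofMul_pow, U_pow, ofMul_one]⟩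

theorem θ0_one (p : ℕ) [Fact p.Prime] (n k : ℕ) (h : n < p ^ k) :
    θ0 p n k h 1 = Additive.ofMul (U p n k h) := by
  have h1 : ((1 : ℤ) : ZMod (p ^ k)) = 1 := by norm_num
  rw [θ0, ← h1, ZMod.lift_coe]
  simp [zmultiplesHom_apply]

/-- the multiplicative form -/
noncomputable def θ (p : ℕ) [Fact p.Prime] (n k : ℕ) (h : n < p ^ k) :
    Multiplicative (ZMod (p ^ k)) →* R p n :=
  (Units.coeHom (R p n)).comp (AddMonoidHom.toMultiplicativeLeft (θ0 p n k h))

theorem θ_gen (p : ℕ) [Fact p.Prime] (n k : ℕ) (h : n < p ^ k) :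
    θ p n k h (Multiplicative.ofAdd 1) = 1 + T p n := by
  rw [θ]
  simp only [MonoidHom.comp_apply]
  have : (AddMonoidHom.toMultiplicativeLeft (θ0 p n k h)) (Multiplicative.ofAdd 1) = U p n k h := by
    change Additive.toMul (θ0 p n k h 1) = U p n k h
    rw [θ0_one]
    rfl
  rw [this, Units.coeHom_apply, U_val]

theorem θ_dvd (p : ℕ) [Fact p.Prime] (n k : ℕ) (h : n < p ^ k) (z : Multiplicative (ZMod (p ^ k))) :
    T p n ∣ θ p n k h z - 1 := by
  have : NeZero (p ^ k) := ⟨pow_ne_zero _ (Fact.out : p.Prime).ne_zero⟩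
  have hz : z = (Multiplicative.ofAdd (1 : ZMod (p ^ k))) ^ (ZMod.val (Multiplicative.toAdd z)) := by
    rw [← ofAdd_nsmul, nsmul_one, ZMod.natCast_zmod_val]
    rfl
  rw [hz, map_pow, θ_gen]
  have h1 := sub_dvd_pow_sub_pow (1 + T p n) 1 (ZMod.val (Multiplicative.toAdd z))
  rw [one_pow, add_sub_cancel_left] at h1
  exact h1

theorem lift_dvd (p : ℕ) [Fact p.Prime] (n : ℕ) (Q : Type) [Group Q] (F : Q →* R p n)
    (hF : ∀ q, T p n ∣ F q - 1) (f : MonoidAlgebra (ZMod p) Q) :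
    T p n ∣ MonoidAlgebra.lift (ZMod p) (R p n) Q F f -
      algebraMap (ZMod p) (R p n) (augMap p Q f) := by
  induction f using MonoidAlgebra.induction_on with
  | of q =>
    rw [MonoidAlgebra.lift_of, augMap, MonoidAlgebra.lift_of, MonoidHom.one_apply, map_one]
    exact hF q
  | add f g hf hg =>
    rw [map_add, map_add, map_add]
    have := dvd_add hf hg
    convert this using 1
    ring
  | smul c f hf =>
    rw [Algebra.smul_def c f, map_mul, map_mul, map_mul, AlgHom.commutes, AlgHom.commutes,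
      Algebra.algebraMap_self, RingHom.id_apply, ← mul_sub]
    exact Dvd.dvd.mul_left hf _

end ALO

open ALO in
theorem alo_thm (_ : AUGBStmt) : ALOStmt := by
  intro p hp G _ _ _ _ hφ hfin n hn
  by_contra hlt
  have ha0 : aSeq p G n = 0 := by omega
  obtain ⟨φ, hs, ho⟩ := hφ n
  have hnk : n < p ^ n := Nat.lt_pow_self hp.out.one_lt
  let U0 : OpenNormalSubgroup G :=
    { toSubgroup := φ.ker
      isOpen' := ho
      isNormal' := inferInstance }
  obtain ⟨x, hx⟩ := hs (Multiplicative.ofAdd 1)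
  -- the element `x - 1`
  let Y : CGA p G := ⟨fun V => MonoidAlgebra.of (ZMod p) _ (x : G ⧸ V.toSubgroup) - 1, by
    intro U V h
    rw [map_sub, map_one]
    congr 1
    simp only [transMap, MonoidAlgebra.of_apply, MonoidAlgebra.mapDomainAlgHom_apply,
      MonoidAlgebra.mapDomain_single]
    rfl⟩
  have hY : Y ∈ augIhat p G := by
    intro V
    change augMap p _ (MonoidAlgebra.of (ZMod p) _ (x : G ⧸ V.toSubgroup) - 1) = 0
    rw [map_sub, map_one, augMap, MonoidAlgebra.lift_of, MonoidHom.one_apply, sub_self]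
  -- the homomorphism to the truncated polynomial ring
  let F : (G ⧸ U0.toSubgroup) →* R p n := (θ p n n hnk).comp (QuotientGroup.kerLift φ)
  have hF : ∀ q, T p n ∣ F q - 1 := fun q => θ_dvd p n n hnk _
  let Φ : CGA p G →+* R p n :=
    ((MonoidAlgebra.lift (ZMod p) (R p n) (G ⧸ U0.toSubgroup) F).toRingHom).comp
      ((Pi.evalRingHom (fun U : OpenNormalSubgroup G =>
        MonoidAlgebra (ZMod p) (G ⧸ U.toSubgroup)) U0).comp (CGA p G).val.toRingHom)
  have hΦ : ∀ f : CGA p G, Φ f = MonoidAlgebra.lift (ZMod p) (R p n) (G ⧸ U0.toSubgroup) F (f.1 U0) :=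
    fun f => rfl
  have hpow : ∀ m, ∀ f ∈ (augIhat p G) ^ m, T p n ^ m ∣ Φ f := by
    intro m
    induction m with
    | zero =>
      intro f _
      rw [pow_zero]
      exact one_dvd _
    | succ m ih =>
      intro f hf
      rw [pow_succ] at hf
      induction hf using Submodule.mul_induction_on' with
      | mem_mul_mem a ha b hb =>
        rw [map_mul, pow_succ (T p n) m]
        apply mul_dvd_mul (ih a ha)
        have h1 := lift_dvd p n (G ⧸ U0.toSubgroup) F hF (b.1 U0)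
        have h2 : augMap p _ (b.1 U0) = 0 := hb U0
        rw [h2, map_zero, sub_zero] at h1
        rw [hΦ]
        exact h1
      | add a _ b _ ha hb =>
        rw [map_add]
        exact dvd_add ha hb
  have hYn : Y ^ n ∈ (augIhat p G) ^ n := Submodule.pow_mem_pow _ hY n
  have hYn1 : Y ^ n ∈ (augIhat p G) ^ (n + 1) := by
    have := hfin n hn
    have h0 : Module.finrank (ZMod p)
      (↥((augIhat p G) ^ n) ⧸ ((augIhat p G) ^ (n + 1)).comap ((augIhat p G) ^ n).subtype) = 0 := ha0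
    have h1 := Module.finrank_zero_iff.mp h0
    have h2 := Submodule.Quotient.subsingleton_iff.mp h1
    have h3 : (⟨Y ^ n, hYn⟩ : ↥((augIhat p G) ^ n)) ∈
        ((augIhat p G) ^ (n + 1)).comap ((augIhat p G) ^ n).subtype := by
      rw [h2]
      exact Submodule.mem_top
    exact h3
  have hz := hpow (n + 1) _ hYn1
  rw [T_pow_eq p n (n + 1) (Nat.lt_succ_self n), zero_dvd_iff, map_pow] at hz
  have hΦY : Φ Y = T p n := by
    rw [hΦ]
    change MonoidAlgebra.lift (ZMod p) (R p n) (G ⧸ U0.toSubgroup) F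
      (MonoidAlgebra.of (ZMod p) _ (x : G ⧸ U0.toSubgroup) - 1) = T p n
    rw [map_sub, map_one, MonoidAlgebra.lift_of]
    change θ p n n hnk (φ x) - 1 = T p n
    rw [hx, θ_gen, add_sub_cancel_left]
  rw [hΦY] at hz
  exact T_pow_ne p n hz

end Pool.Agent.H82.PRP
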