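import Pool.Agent.H82.PRP.Stmts

/-!
# JUN: functions pulled back from level `m` are combinations of short monomials in the lamps
-/

namespace Pool.Agent.H82.PRP

namespace JUN

/-- the span of the monomials of length at most `d` -/
def SP (p : ℕ) (I : Type) (d : ℕ) : Submodule (ZMod p) ((I → ZMod p) → ZMod p) :=
  Submodule.span (ZMod p) {φ : (I → ZMod p) → ZMod p |
      ∃ l : List I, l.length ≤ d ∧ φ = fun a => (l.map a).prod}

theorem one_mem {p : ℕ} {I : Type} (d : ℕ) :
    (1 : (I → ZMod p) → ZMod p) ∈ SP p I d := by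
  apply Submodule.subset_span
  refine ⟨[], by simp, ?_⟩
  funext a
  simp

theorem mul_mem' {p : ℕ} {I : Type} {d e : ℕ} {f g : (I → ZMod p) → ZMod p}
    (hf : f ∈ SP p I d) (hg : g ∈ SP p I e) : f * g ∈ SP p I (d + e) := by
  unfold SP at hf hg
  induction hf using Submodule.span_induction with
  | mem x hx =>
    obtain ⟨l, hl, rfl⟩ := hx
    induction hg using Submodule.span_induction with
    | mem y hy =>
      obtain ⟨l', hl', rfl⟩ := hy
      apply Submodule.subset_span
      refine ⟨l ++ l', by simp; omega, ?_⟩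
      funext a
      simp
    | zero =>
      rw [mul_zero]
      exact Submodule.zero_mem _
    | add x y _ _ hx hy =>
      rw [mul_add]
      exact Submodule.add_mem _ hx hy
    | smul c x _ hx =>
      rw [mul_smul_comm]
      exact Submodule.smul_mem _ c hx
  | zero =>
    rw [zero_mul]
    exact Submodule.zero_mem _
  | add x y _ _ hx hy =>
    rw [add_mul]
    exact Submodule.add_mem _ hx hy
  | smul c x _ hx =>
    rw [smul_mul_assoc]
    exact Submodule.smul_mem _ c hx

theorem mono {p : ℕ} {I : Type} {d e : ℕ} (h : d ≤ e) : SP p I d ≤ SP p I e := by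
  apply Submodule.span_mono
  rintro x ⟨l, hl, rfl⟩
  exact ⟨l, hl.trans h, rfl⟩

theorem pow_mem' {p : ℕ} {I : Type} {f : (I → ZMod p) → ZMod p}
    (hf : f ∈ SP p I 1) (n : ℕ) : f ^ n ∈ SP p I n := by
  induction n with
  | zero =>
    rw [pow_zero]
    exact one_mem 0
  | succ n ih =>
    rw [pow_succ]
    exact mul_mem' ih hf

theorem prod_mem' {p : ℕ} {I J : Type} (d : ℕ) (F : J → (I → ZMod p) → ZMod p)
    (hF : ∀ j, F j ∈ SP p I d) (s : Finset J) : ∏ j ∈ s, F j ∈ SP p I (d * s.card) := by
  classical
  induction s using Finset.induction_on with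
  | empty =>
    simpa using one_mem (p := p) (I := I) 0
  | insert j s hj ih =>
    rw [Finset.prod_insert hj, Finset.card_insert_of_notMem hj]
    have h1 := mul_mem' (hF j) ih
    have h2 : d + d * s.card = d * (s.card + 1) := by ring
    rw [h2] at h1
    exact h1

theorem coord_mem {p : ℕ} {I : Type} (i : I) :
    (fun a : I → ZMod p => a i) ∈ SP p I 1 := by
  apply Submodule.subset_span
  refine ⟨[i], by simp, ?_⟩
  funext a
  simp

end JUN

open JUN in
theorem jun_thm : JUNStmt := by
  intro p hp m m' h g s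
  classical
  have : NeZero (p ^ m') := ⟨pow_ne_zero _ hp.out.ne_zero⟩
  have : NeZero (p ^ m) := ⟨pow_ne_zero _ hp.out.ne_zero⟩
  have : NeZero p := ⟨hp.out.ne_zero⟩
  change _ ∈ SP p (ZMod (p ^ m')) ((p - 1) * p ^ m)
  set π : ZMod (p ^ m') → ZMod (p ^ m) :=
    fun i => ZMod.castHom (pow_dvd_pow p h) (ZMod (p ^ m)) i with hπ
  -- the coordinates of the projection
  set A : ZMod (p ^ m) → (ZMod (p ^ m') → ZMod p) → ZMod p :=
    fun j a => ∑ i ∈ Finset.univ.filter (fun i => π i = j), a i with hA
  have hproj : ∀ a : ZMod (p ^ m') → ZMod p,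
      lampProj p h ⟨a, s⟩ = ⟨fun j => A j a, π s⟩ := by
    intro a
    unfold lampProj
    ext j
    · simp only
      rw [hA]
      simp only
      rw [finsum_mem_eq_finite_toFinset_sum _ (Set.toFinite _)]
      apply Finset.sum_congr _ (fun _ _ => rfl)
      ext i
      simp [hπ]
    · rfl
  have hAmem : ∀ j, A j ∈ SP p (ZMod (p ^ m')) 1 := by
    intro j
    have : A j = ∑ i ∈ Finset.univ.filter (fun i => π i = j),
        (fun a : ZMod (p ^ m') → ZMod p => a i) := by
      funext a
      simp [hA, Finset.sum_apply]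
    rw [this]
    exact Submodule.sum_mem _ (fun i _ => coord_mem i)
  have hcmem : ∀ c : ZMod p, (fun _ => c : (ZMod (p ^ m') → ZMod p) → ZMod p) ∈
      SP p (ZMod (p ^ m')) 1 := by
    intro c
    have : (fun _ => c : (ZMod (p ^ m') → ZMod p) → ZMod p) = c • 1 := by
      funext a
      simp
    rw [this]
    exact Submodule.smul_mem _ _ (one_mem _)
  -- indicators
  have hind : ∀ b : ZMod (p ^ m) → ZMod p,
      (fun a : ZMod (p ^ m') → ZMod p => if (fun j => A j a) = b then (1 : ZMod p) else 0) ∈
        SP p (ZMod (p ^ m')) ((p - 1) * p ^ m) := by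
    intro b
    have h1 : (fun a : ZMod (p ^ m') → ZMod p => if (fun j => A j a) = b then (1 : ZMod p) else 0)
        = ∏ j ∈ (Finset.univ : Finset (ZMod (p ^ m))),
          (1 - (A j - (fun _ => b j)) ^ (p - 1)) := by
      funext a
      rw [Finset.prod_apply]
      have h2 : ∀ j, (1 - (A j - (fun _ => b j)) ^ (p - 1) : (ZMod (p ^ m') → ZMod p) → ZMod p) a =
          if A j a = b j then (1 : ZMod p) else 0 := by
        intro j
        simp only [Pi.sub_apply, Pi.one_apply, Pi.pow_apply]
        rw [ZMod.pow_card_sub_one]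
        by_cases hj : A j a = b j
        · simp [hj]
        · have : A j a - b j ≠ 0 := sub_ne_zero.mpr hj
          simp [hj, this]
      rw [Finset.prod_congr rfl (fun j _ => h2 j)]
      by_cases hb : (fun j => A j a) = b
      · rw [if_pos hb]
        symm
        apply Finset.prod_eq_one
        intro j _
        rw [if_pos (congrFun hb j)]
      · rw [if_neg hb]
        symm
        have : ∃ j, A j a ≠ b j := by
          by_contra hc
          push Not at hc
          exact hb (funext hc)
        obtain ⟨j, hj⟩ := this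
        exact Finset.prod_eq_zero (Finset.mem_univ j) (if_neg hj)
    rw [h1]
    have h3 := prod_mem' (p := p) (I := ZMod (p ^ m')) (p - 1)
      (fun j => 1 - (A j - (fun _ => b j)) ^ (p - 1))
      (fun j => Submodule.sub_mem _ (one_mem _)
        (pow_mem' (Submodule.sub_mem _ (hAmem j) (hcmem _)) _))
      (Finset.univ : Finset (ZMod (p ^ m)))
    rw [Finset.card_univ, ZMod.card] at h3
    exact h3
  have hsum : (fun a : ZMod (p ^ m') → ZMod p => g (lampProj p h ⟨a, s⟩)) =
      ∑ b : ZMod (p ^ m) → ZMod p, g ⟨b, π s⟩ •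
        (fun a : ZMod (p ^ m') → ZMod p =>
          if (fun j => A j a) = b then (1 : ZMod p) else 0) := by
    funext a
    rw [hproj a, Finset.sum_apply]
    simp only [Pi.smul_apply, smul_eq_mul, mul_ite, mul_one, mul_zero]
    rw [Finset.sum_ite_eq]
    simp
  rw [hsum]
  exact Submodule.sum_mem _ (fun b _ => Submodule.smul_mem _ _ (hind b))

end Pool.Agent.H82.PRP
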